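import Pool.Agent.W_cd7020_h81.Defs

/-!
# Rainbow matchings
-/

set_option autoImplicit false

namespace Pool.Agent.W_cd7020_h81r

open Finset Pool.Agent.W_cd7020_h81

variable {V κ : Type*} [DecidableEq V] [DecidableEq κ]

/-- The vertices of a set of edges. -/
def CRm_V (M : Finset (Sym2 V)) : Finset V := M.biUnion fun e => e.toFinset

omit [DecidableEq κ] in
theorem CRm_memV {M : Finset (Sym2 V)} {x : V} : x ∈ CRm_V M ↔ ∃ e ∈ M, x ∈ e := by
  unfold CRm_V
  rw [Finset.mem_biUnion]
  simp only [Sym2.mem_toFinset]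

theorem CRm_card_toFinset (e : Sym2 V) : e.toFinset.card ≤ 2 := by
  by_cases h : e.IsDiag
  · rw [Sym2.card_toFinset_of_isDiag e h]
    omega
  · rw [Sym2.card_toFinset_of_not_isDiag e h]

theorem CRm_cardV (M : Finset (Sym2 V)) : (CRm_V M).card ≤ 2 * M.card := by
  unfold CRm_V
  refine Finset.card_biUnion_le.trans ?_
  refine (Finset.sum_le_sum fun e _ => CRm_card_toFinset e).trans ?_
  rw [Finset.sum_const, smul_eq_mul, mul_comm]

omit [DecidableEq κ] in
theorem CRm_ext (col : Sym2 V → κ) (H : Finset (Sym2 V)) (k : ℕ)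
    (M : Finset (Sym2 V)) (hM : M ⊆ H)
    (hm : ∀ e ∈ M, ∀ e' ∈ M, ∀ x, x ∈ e → x ∈ e' → e = e') (hr : Rb col M) (hk : M.card = k)
    (e : Sym2 V) (he : e ∈ H) (h1 : ∀ x ∈ e, x ∉ CRm_V M) (h2 : ∀ e' ∈ M, col e ≠ col e') :
    ∃ M', M' ⊆ H ∧ (∀ e ∈ M', ∀ e' ∈ M', ∀ x, x ∈ e → x ∈ e' → e = e') ∧ Rb col M' ∧
      M'.card = k + 1 := by
  have heM : e ∉ M := fun h => h2 e h rfl
  refine ⟨insert e M, Finset.insert_subset he hM, ?_, ?_, ?_⟩
  · intro a ha b hb x hxa hxb
    rw [Finset.mem_insert] at ha hb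
    rcases ha with rfl | ha
    · rcases hb with rfl | hb
      · rfl
      · exact absurd (CRm_memV.mpr ⟨b, hb, hxb⟩) (h1 x hxa)
    · rcases hb with rfl | hb
      · exact absurd (CRm_memV.mpr ⟨a, ha, hxa⟩) (h1 x hxb)
      · exact hm a ha b hb x hxa hxb
  · intro a ha b hb hab
    rw [Finset.mem_insert] at ha hb
    rcases ha with rfl | ha
    · rcases hb with rfl | hb
      · rfl
      · exact absurd hab (h2 b hb)
    · rcases hb with rfl | hb
      · exact absurd hab.symm (h2 a ha)
      · exact hr a ha b hb hab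
  · rw [Finset.card_insert_of_notMem heM, hk]

theorem CRm_sum (H : Finset (Sym2 V)) (W : Finset V) : ∑ x ∈ W, dg H x ≤ 2 * H.card := by
  unfold dg
  simp only [Finset.card_filter]
  rw [Finset.sum_comm]
  have h1 : ∀ e ∈ H, ∑ x ∈ W, (if x ∈ e then 1 else 0) ≤ 2 := by
    intro e _
    rw [← Finset.card_filter]
    refine le_trans (Finset.card_le_card ?_) (CRm_card_toFinset e)
    intro x hx
    rw [Finset.mem_filter] at hx
    exact Sym2.mem_toFinset.mpr hx.2
  refine (Finset.sum_le_sum h1).trans ?_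
  rw [Finset.sum_const, smul_eq_mul, mul_comm]

/-- a set of edges with at most one edge at every `x ∈ S`, all of whose edges meet `S` -/
theorem CRm_inj (S : Finset V) (A : Finset (Sym2 V)) (h : ∀ e ∈ A, ∃ x ∈ S, x ∈ e)
    (h1 : ∀ x ∈ S, ∀ e ∈ A, ∀ e' ∈ A, x ∈ e → x ∈ e' → e = e') : A.card ≤ S.card := by
  classical
  have h2 : A ⊆ S.biUnion fun x => A.filter fun e => x ∈ e := by
    intro e he
    obtain ⟨x, hx, hxe⟩ := h e he
    rw [Finset.mem_biUnion]
    exact ⟨x, hx, Finset.mem_filter.mpr ⟨he, hxe⟩⟩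
  refine (Finset.card_le_card h2).trans (Finset.card_biUnion_le.trans ?_)
  rw [Finset.card_eq_sum_ones S]
  refine Finset.sum_le_sum fun x hx => ?_
  rw [Finset.card_le_one]
  intro a ha b hb
  rw [Finset.mem_filter] at ha hb
  exact h1 x hx a ha.1 b hb.1 ha.2 hb.2

omit [DecidableEq V] in
/-- at most one edge for each colour -/
theorem CRm_injc (col : Sym2 V → κ) (M A : Finset (Sym2 V))
    (h : ∀ e ∈ A, ∃ e' ∈ M, col e = col e')
    (h1 : ∀ e ∈ A, ∀ e' ∈ A, col e = col e' → e = e') : A.card ≤ M.card := by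
  refine le_trans ?_ (Finset.card_image_le (s := M) (f := col))
  refine Finset.card_le_card_of_injOn col ?_ ?_
  · intro e he
    obtain ⟨e', he', hc⟩ := h e he
    rw [hc]
    exact Finset.mem_coe.mpr (Finset.mem_image_of_mem col he')
  · intro a ha b hb hab
    exact h1 a ha b hb hab

/-- A vertex `v` of degree at least `3 k + 1` and a rainbow matching `M` of size `k` avoiding `v`: one
more edge. (At most `2 k` edges at `v` lead to vertices of `M`, at most `k` have a colour of `M`.) -/
theorem rm_vertex (col : Sym2 V → κ) (H : Finset (Sym2 V)) (hdiag : ∀ e ∈ H, ¬ e.IsDiag)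
    (hp : ∀ e ∈ H, ∀ e' ∈ H, ∀ x, x ∈ e → x ∈ e' → col e = col e' → e = e') (k : ℕ)
    (M : Finset (Sym2 V)) (hM : M ⊆ H)
    (hm : ∀ e ∈ M, ∀ e' ∈ M, ∀ x, x ∈ e → x ∈ e' → e = e') (hr : Rb col M) (hk : M.card = k)
    (v : V) (hv : ∀ e ∈ M, v ∉ e) (hd : 3 * k + 1 ≤ dg H v) :
    ∃ M', M' ⊆ H ∧ (∀ e ∈ M', ∀ e' ∈ M', ∀ x, x ∈ e → x ∈ e' → e = e') ∧ Rb col M' ∧
      M'.card = k + 1 := by
  classical
  set D := H.filter fun e => v ∈ e with hD
  set A := D.filter fun e => ∃ x ∈ CRm_V M, x ∈ e with hA
  set B := D.filter fun e => ∃ e' ∈ M, col e = col e' with hB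
  have hvV : v ∉ CRm_V M := by
    intro h
    obtain ⟨e, he, hve⟩ := CRm_memV.mp h
    exact hv e he hve
  have hAc : A.card ≤ 2 * k := by
    refine (CRm_inj (CRm_V M) A ?_ ?_).trans ((CRm_cardV M).trans (by rw [hk]))
    · intro e he
      exact (Finset.mem_filter.mp he).2
    · intro x hx e he e' he' hxe hxe'
      have hxv : x ≠ v := fun h => hvV (h ▸ hx)
      have h1 := (Finset.mem_filter.mp (Finset.mem_filter.mp he).1).2
      have h2 := (Finset.mem_filter.mp (Finset.mem_filter.mp he').1).2
      rw [(Sym2.mem_and_mem_iff hxv).mp ⟨hxe, h1⟩, (Sym2.mem_and_mem_iff hxv).mp ⟨hxe', h2⟩]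
  have hBc : B.card ≤ k := by
    refine (CRm_injc col M B ?_ ?_).trans hk.le
    · intro e he
      exact (Finset.mem_filter.mp he).2
    · intro e he e' he' hc
      have h1 := Finset.mem_filter.mp (Finset.mem_filter.mp he).1
      have h2 := Finset.mem_filter.mp (Finset.mem_filter.mp he').1
      exact hp e h1.1 e' h2.1 v h1.2 h2.2 hc
  have hex : ∃ e ∈ D, e ∉ A ∪ B := by
    by_contra hno
    push Not at hno
    have h1 := (Finset.card_le_card hno).trans (Finset.card_union_le A B)
    have h2 : D.card = dg H v := rfl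
    omega
  obtain ⟨e, he, hAB⟩ := hex
  rw [Finset.mem_union, not_or] at hAB
  refine CRm_ext col H k M hM hm hr hk e (Finset.mem_filter.mp he).1 ?_ ?_
  · intro x hx hxV
    exact hAB.1 (Finset.mem_filter.mpr ⟨he, x, hxV, hx⟩)
  · intro e' he' hc
    exact hAB.2 (Finset.mem_filter.mpr ⟨he, e', he', hc⟩)

/-- A colour `q` with at least `2 k + 1` edges and a rainbow matching `M` of size `k` avoiding the
colour: one more edge (every vertex of `M` is in at most one edge of colour `q`). -/
theorem rm_colour (col : Sym2 V → κ) (H : Finset (Sym2 V)) (hdiag : ∀ e ∈ H, ¬ e.IsDiag)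
    (hp : ∀ e ∈ H, ∀ e' ∈ H, ∀ x, x ∈ e → x ∈ e' → col e = col e' → e = e') (k : ℕ)
    (M : Finset (Sym2 V)) (hM : M ⊆ H)
    (hm : ∀ e ∈ M, ∀ e' ∈ M, ∀ x, x ∈ e → x ∈ e' → e = e') (hr : Rb col M) (hk : M.card = k)
    (q : κ) (hq : ∀ e ∈ M, col e ≠ q) (hd : 2 * k + 1 ≤ (H.filter (fun e => col e = q)).card) :
    ∃ M', M' ⊆ H ∧ (∀ e ∈ M', ∀ e' ∈ M', ∀ x, x ∈ e → x ∈ e' → e = e') ∧ Rb col M' ∧
      M'.card = k + 1 := by
  classical
  set D := H.filter fun e => col e = q with hD
  set A := D.filter fun e => ∃ x ∈ CRm_V M, x ∈ e with hA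
  have hAc : A.card ≤ 2 * k := by
    refine (CRm_inj (CRm_V M) A ?_ ?_).trans ((CRm_cardV M).trans (by rw [hk]))
    · intro e he
      exact (Finset.mem_filter.mp he).2
    · intro x _ e he e' he' hxe hxe'
      have h1 := Finset.mem_filter.mp (Finset.mem_filter.mp he).1
      have h2 := Finset.mem_filter.mp (Finset.mem_filter.mp he').1
      exact hp e h1.1 e' h2.1 x hxe hxe' (h1.2.trans h2.2.symm)
  have hex : ∃ e ∈ D, e ∉ A := by
    by_contra hno
    push Not at hno
    have h1 := Finset.card_le_card hno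
    omega
  obtain ⟨e, he, hA'⟩ := hex
  refine CRm_ext col H k M hM hm hr hk e (Finset.mem_filter.mp he).1 ?_ ?_
  · intro x hx hxV
    exact hA' (Finset.mem_filter.mpr ⟨he, x, hxV, hx⟩)
  · intro e' he' hc
    exact hq e' he' (hc.symm.trans (Finset.mem_filter.mp he).2)

/-- All degrees at most `3 k`, all colours with at most `2 k` edges, more than `8 k²` edges, and a
rainbow matching `M` of size `m ≤ k`: one more edge (at most `2 m 3 k + m 2 k` edges meet `M` or have a
colour of `M`). -/
theorem rm_greedy (col : Sym2 V → κ) (H : Finset (Sym2 V)) (hdiag : ∀ e ∈ H, ¬ e.IsDiag)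
    (k : ℕ) (hv : ∀ v, dg H v ≤ 3 * k) (hq : ∀ q, (H.filter (fun e => col e = q)).card ≤ 2 * k)
    (hH : 8 * k ^ 2 < H.card) (m : ℕ) (hmk : m ≤ k)
    (M : Finset (Sym2 V)) (hM : M ⊆ H)
    (hm : ∀ e ∈ M, ∀ e' ∈ M, ∀ x, x ∈ e → x ∈ e' → e = e') (hr : Rb col M) (hk : M.card = m) :
    ∃ M', M' ⊆ H ∧ (∀ e ∈ M', ∀ e' ∈ M', ∀ x, x ∈ e → x ∈ e' → e = e') ∧ Rb col M' ∧
      M'.card = m + 1 := by
  classical
  set A := H.filter fun e => ∃ x ∈ CRm_V M, x ∈ e with hA
  set B := H.filter fun e => ∃ e' ∈ M, col e = col e' with hB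
  have hAc : A.card ≤ 2 * m * (3 * k) := by
    have h2 : A ⊆ (CRm_V M).biUnion fun x => H.filter fun e => x ∈ e := by
      intro e he
      obtain ⟨heH, x, hx, hxe⟩ := Finset.mem_filter.mp he
      rw [Finset.mem_biUnion]
      exact ⟨x, hx, Finset.mem_filter.mpr ⟨heH, hxe⟩⟩
    refine (Finset.card_le_card h2).trans (Finset.card_biUnion_le.trans ?_)
    refine (Finset.sum_le_sum fun x _ => hv x).trans ?_
    rw [Finset.sum_const, smul_eq_mul]
    exact Nat.mul_le_mul_right _ ((CRm_cardV M).trans (by rw [hk]))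
  have hBc : B.card ≤ m * (2 * k) := by
    have h2 : B ⊆ M.biUnion fun e' => H.filter fun e => col e = col e' := by
      intro e he
      obtain ⟨heH, e', he', hc⟩ := Finset.mem_filter.mp he
      rw [Finset.mem_biUnion]
      exact ⟨e', he', Finset.mem_filter.mpr ⟨heH, hc⟩⟩
    refine (Finset.card_le_card h2).trans (Finset.card_biUnion_le.trans ?_)
    refine (Finset.sum_le_sum fun e' _ => hq (col e')).trans ?_
    rw [Finset.sum_const, smul_eq_mul, hk]
  have hex : ∃ e ∈ H, e ∉ A ∪ B := by
    by_contra hno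
    push Not at hno
    have h1 := (Finset.card_le_card hno).trans (Finset.card_union_le A B)
    have h3 : 2 * m * (3 * k) + m * (2 * k) ≤ 8 * k ^ 2 := by nlinarith
    omega
  obtain ⟨e, he, hAB⟩ := hex
  rw [Finset.mem_union, not_or] at hAB
  refine CRm_ext col H m M hM hm hr hk e he ?_ ?_
  · intro x hx hxV
    exact hAB.1 (Finset.mem_filter.mpr ⟨he, x, hxV, hx⟩)
  · intro e' he' hc
    exact hAB.2 (Finset.mem_filter.mpr ⟨he, e', he', hc⟩)

/-- A properly coloured graph `H` on `W`, `|W| ≥ 16 k`, with minimum degree at least `k` contains a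
rainbow matching of size `k`. Induction on `k`, from `k` to `k + 1`: if some vertex `v` has degree at least
`3 k + 1`, delete it (the other degrees drop by at most one, `|W|` by one) and use `rm_vertex`; if some colour
has at least `2 k + 1` edges, delete these (the degrees drop by at most one) and use `rm_colour`; otherwise
`2 |H| = ∑ dg ≥ 16 (k + 1) (k + 1)`, and iterate `rm_greedy` from `M = ∅`. -/
theorem rm_exists (col : Sym2 V → κ) (k : ℕ) : ∀ (H : Finset (Sym2 V)) (W : Finset V),
    (∀ e ∈ H, ¬ e.IsDiag) → (∀ e ∈ H, ∀ x ∈ e, x ∈ W) →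
    (∀ e ∈ H, ∀ e' ∈ H, ∀ x, x ∈ e → x ∈ e' → col e = col e' → e = e') →
    (∀ x ∈ W, k ≤ dg H x) → 16 * k ≤ W.card →
    ∃ M, M ⊆ H ∧ (∀ e ∈ M, ∀ e' ∈ M, ∀ x, x ∈ e → x ∈ e' → e = e') ∧ Rb col M ∧
      M.card = k := by
  classical
  induction k with
  | zero =>
    intro H W _ _ _ _ _
    exact ⟨∅, Finset.empty_subset _, fun e he => absurd he (Finset.notMem_empty e),
      fun e he => absurd he (Finset.notMem_empty e), rfl⟩
  | succ k ih =>
    intro H W hdiag hW hp hdeg hcard
    by_cases hA : ∃ v, 3 * k + 1 ≤ dg H v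
    · obtain ⟨v, hv⟩ := hA
      obtain ⟨M, hM, hm, hr, hk⟩ := ih (H.filter fun e => v ∉ e) (W.erase v)
        (fun e he => hdiag e (Finset.mem_filter.mp he).1)
        (fun e he x hx => by
          have h1 := Finset.mem_filter.mp he
          exact Finset.mem_erase.mpr ⟨fun h => h1.2 (h ▸ hx), hW e h1.1 x hx⟩)
        (fun e he e' he' => hp e (Finset.mem_filter.mp he).1 e' (Finset.mem_filter.mp he').1)
        (fun x hx => by
          have h1 := Finset.mem_erase.mp hx
          have h2 := hdeg x h1.2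
          have h3 : (H.filter fun e => x ∈ e) ⊆
              ((H.filter fun e => v ∉ e).filter fun e => x ∈ e) ∪ {s(x, v)} := by
            intro e he
            have h4 := Finset.mem_filter.mp he
            rw [Finset.mem_union, Finset.mem_singleton]
            by_cases hve : v ∈ e
            · exact Or.inr ((Sym2.mem_and_mem_iff h1.1).mp ⟨h4.2, hve⟩)
            · exact Or.inl (Finset.mem_filter.mpr ⟨Finset.mem_filter.mpr ⟨h4.1, hve⟩, h4.2⟩)
          have h5 := (Finset.card_le_card h3).trans (Finset.card_union_le _ _)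
          rw [Finset.card_singleton] at h5
          unfold dg at h2 ⊢
          omega)
        (by
          have := Finset.pred_card_le_card_erase (s := W) (a := v)
          omega)
      exact rm_vertex col H hdiag hp k M (hM.trans (Finset.filter_subset _ _)) hm hr hk v
        (fun e he => (Finset.mem_filter.mp (hM he)).2) hv
    · by_cases hB : ∃ q, 2 * k + 1 ≤ (H.filter (fun e => col e = q)).card
      · obtain ⟨q, hq⟩ := hB
        obtain ⟨M, hM, hm, hr, hk⟩ := ih (H.filter fun e => col e ≠ q) W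
          (fun e he => hdiag e (Finset.mem_filter.mp he).1)
          (fun e he x hx => hW e (Finset.mem_filter.mp he).1 x hx)
          (fun e he e' he' => hp e (Finset.mem_filter.mp he).1 e' (Finset.mem_filter.mp he').1)
          (fun x hx => by
            have h2 := hdeg x hx
            have h3 : (H.filter fun e => x ∈ e) ⊆
                ((H.filter fun e => col e ≠ q).filter fun e => x ∈ e) ∪
                  (H.filter fun e => col e = q ∧ x ∈ e) := by
              intro e he
              have h4 := Finset.mem_filter.mp he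
              rw [Finset.mem_union]
              by_cases hve : col e = q
              · exact Or.inr (Finset.mem_filter.mpr ⟨h4.1, hve, h4.2⟩)
              · exact Or.inl (Finset.mem_filter.mpr ⟨Finset.mem_filter.mpr ⟨h4.1, hve⟩, h4.2⟩)
            have h5 := (Finset.card_le_card h3).trans (Finset.card_union_le _ _)
            have h6 : (H.filter fun e => col e = q ∧ x ∈ e).card ≤ 1 := by
              rw [Finset.card_le_one]
              intro a ha b hb
              have h7 := Finset.mem_filter.mp ha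
              have h8 := Finset.mem_filter.mp hb
              exact hp a h7.1 b h8.1 x h7.2.2 h8.2.2 (h7.2.1.trans h8.2.1.symm)
            unfold dg at h2 ⊢
            omega)
          (by omega)
        exact rm_colour col H hdiag hp k M (hM.trans (Finset.filter_subset _ _)) hm hr hk q
          (fun e he => (Finset.mem_filter.mp (hM he)).2) hq
      · push Not at hA hB
        have hA' : ∀ v, dg H v ≤ 3 * k := fun v => by
          have := hA v
          omega
        have hB' : ∀ q, (H.filter (fun e => col e = q)).card ≤ 2 * k := fun q => by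
          have := hB q
          omega
        have hH : 8 * k ^ 2 < H.card := by
          have h1 := CRm_sum H W
          have h2 : W.card * (k + 1) ≤ ∑ x ∈ W, dg H x := by
            rw [← smul_eq_mul, ← Finset.sum_const]
            exact Finset.sum_le_sum hdeg
          have h3 : 16 * (k + 1) * (k + 1) ≤ W.card * (k + 1) := Nat.mul_le_mul_right _ hcard
          nlinarith
        have hall : ∀ m, m ≤ k + 1 → ∃ M, M ⊆ H ∧
            (∀ e ∈ M, ∀ e' ∈ M, ∀ x, x ∈ e → x ∈ e' → e = e') ∧ Rb col M ∧ M.card = m := by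
          intro m
          induction m with
          | zero =>
            intro _
            exact ⟨∅, Finset.empty_subset _, fun e he => absurd he (Finset.notMem_empty e),
              fun e he => absurd he (Finset.notMem_empty e), rfl⟩
          | succ m ihm =>
            intro hmk
            obtain ⟨M, hM, hm, hr, hk⟩ := ihm (by omega)
            exact rm_greedy col H hdiag k hA' hB' hH m (by omega) M hM hm hr hk
        exact hall (k + 1) le_rfl

end Pool.Agent.W_cd7020_h81r
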