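import Pool.Agent.W_cd7020_h81r.CHub
import Pool.Agent.W_cd7020_h81r.CRm
import Pool.Agent.W_cd7020_h81k.KDefs

/-!
# A rainbow matching in the other colours
-/

set_option autoImplicit false

namespace Pool.Agent.W_cd7020_h81r

open Finset Pool.Agent.W_cd7020_h81 Pool.Agent.W_cd7020_h81b Pool.Agent.W_cd7020_h81k

variable {V κ : Type*} [DecidableEq V] [DecidableEq κ] [Fintype V]

/-- There is a matching with `n - 1 - |S|` edges: `rm_exists` for the edges with colours not in `S`,
every vertex has degree at least `n - 1 - |S|` (`deg_nS`). -/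
theorem nS_matching (col : Sym2 V → κ) (hcol : Proper col) (S : Finset κ)
    (hS : 16 * (Fintype.card V - 1 - S.card) ≤ Fintype.card V) :
    ∃ M : Finset (Sym2 V), Fix col S M ∧ M.card = Fintype.card V - 1 - S.card := by
  set H : Finset (Sym2 V) := univ.filter (fun e : Sym2 V => ¬ e.IsDiag ∧ col e ∉ S) with hH
  have hmem : ∀ e : Sym2 V, e ∈ H ↔ ¬ e.IsDiag ∧ col e ∉ S := by
    intro e
    simp [hH]
  have hp : ∀ e ∈ H, ∀ e' ∈ H, ∀ x, x ∈ e → x ∈ e' → col e = col e' → e = e' := by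
    intro e he e' he' x hx hx' hc
    obtain ⟨y, rfl⟩ := Sym2.mem_iff_exists.1 hx
    obtain ⟨z, rfl⟩ := Sym2.mem_iff_exists.1 hx'
    by_contra hne
    have hxy : x ≠ y := fun h => ((hmem _).1 he).1 (Sym2.mk_isDiag_iff.2 h)
    have hxz : x ≠ z := fun h => ((hmem _).1 he').1 (Sym2.mk_isDiag_iff.2 h)
    have hyz : y ≠ z := fun h => hne (by rw [h])
    exact hcol x y z hxy hxz hyz hc
  have hdeg : ∀ x ∈ (univ : Finset V), Fintype.card V - 1 - S.card ≤ dg H x := by
    intro x _
    have h5 := deg_nS col hcol S x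
    have h6 : (univ.filter (fun y => y ≠ x ∧ col s(x, y) ∉ S)).card ≤ dg H x := by
      unfold dg
      refine card_le_card_of_injOn (fun y => s(x, y)) ?_ ?_
      · intro y hy
        rw [mem_coe, mem_filter] at hy
        rw [mem_coe, mem_filter, hmem]
        exact ⟨⟨fun h => hy.2.1 (Sym2.mk_isDiag_iff.1 h).symm, hy.2.2⟩, Sym2.mem_mk_left x y⟩
      · intro y _ z _ h
        exact Sym2.congr_right.1 h
    omega
  obtain ⟨M, h1, h2, h3, h4⟩ := rm_exists col (Fintype.card V - 1 - S.card) H univ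
    (fun e he => ((hmem e).1 he).1) (fun _ _ _ _ => mem_univ _) hp hdeg (by rwa [card_univ])
  exact ⟨M, ⟨fun e he => ((hmem e).1 (h1 he)).1, h2, h3, fun e he => ((hmem e).1 (h1 he)).2⟩, h4⟩

end Pool.Agent.W_cd7020_h81r
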