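import Pool.Agent.W_cd7020_h81r.CBrd
import Pool.Agent.W_cd7020_h81.InsV

/-!
# Expanding the virtual edges
-/

set_option autoImplicit false

namespace Pool.Agent.W_cd7020_h81r

open Finset Pool.Agent.W_cd7020_h81

variable {V κ : Type*} [DecidableEq V] [DecidableEq κ]

theorem CExp_pe (l₁ l₂ : List V) (a : V) :
    pe (l₁ ++ a :: l₂) = pe (l₁ ++ [a]) ++ pe (a :: l₂) := by
  cases l₂ with
  | nil => simp [pe]
  | cons c l => rw [pe_append, pe_cons_cons]

/-- Replace the cyclic pair `s(a, b)` of `Q` by the path `a, m, b` (`ce_rotate_to`: assume that `b` is the first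
and `a` the last element of `Q`; the new list is `Q ++ m`). -/
theorem exp_one (Q : List V) (hQ : Q.Nodup) (h3 : 3 ≤ Q.length) (t : V × List V × V)
    (hab : s(t.1, t.2.2) ∈ ce Q) (hm : t.2.1.Nodup) (hd : ∀ x ∈ t.2.1, x ∉ Q) :
    ∃ Q' : List V, Q'.Nodup ∧ 3 ≤ Q'.length ∧ (∀ x, x ∈ Q' ↔ x ∈ Q ∨ x ∈ t.2.1) ∧
      ∀ e, e ∈ ce Q' ↔ (e ∈ ce Q ∧ e ≠ s(t.1, t.2.2)) ∨ e ∈ pe (bl t) := by
  obtain ⟨a, m, b⟩ := t
  simp only at hab hm hd ⊢
  obtain ⟨Q1, h1, h2, h3', h4, h5, h6⟩ := ce_rotate_to Q a b hab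
  have hQ1 : Q1.Nodup := h2 hQ
  have hQ1ne : Q1 ≠ [] := by
    rintro rfl
    simp at h5
  have hhead : Q1.head hQ1ne = b := by
    have := List.head?_eq_some_head hQ1ne
    rw [h5] at this
    exact (Option.some.inj this).symm
  have hlast : Q1.getLast hQ1ne = a := by
    have := List.getLast?_eq_some_getLast hQ1ne
    rw [h6] at this
    exact (Option.some.inj this).symm
  have hce1 : ce Q1 = pe Q1 ++ [s(a, b)] := by
    rw [ce_eq Q1 hQ1ne, hhead, hlast]
  have hnd : (ce Q1).Nodup := ce_nodup Q1 hQ1 (by omega)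
  have hnot : s(a, b) ∉ pe Q1 := by
    intro h
    rw [hce1, List.nodup_append] at hnd
    exact hnd.2.2 _ h _ (List.mem_singleton.2 rfl) rfl
  have hce : ce (Q1 ++ m) = pe Q1 ++ pe (bl (a, m, b)) := by
    obtain ⟨c, Q2, hc⟩ := List.exists_cons_of_ne_nil hQ1ne
    have hcb : c = b := by
      simp only [hc, List.head_cons] at hhead
      exact hhead
    have e1 : (Q1 ++ m).take 1 = [b] := by
      rw [hc, hcb]
      rfl
    have e2 : Q1 = Q1.dropLast ++ [a] := by
      rw [← hlast]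
      exact (List.dropLast_append_getLast hQ1ne).symm
    unfold ce
    rw [e1]
    have e3 : Q1 ++ m ++ [b] = Q1.dropLast ++ a :: (m ++ [b]) := by
      conv_lhs => rw [e2]
      simp
    rw [e3, CExp_pe, ← e2]
    rfl
  refine ⟨Q1 ++ m, ?_, ?_, ?_, ?_⟩
  · rw [List.nodup_append]
    refine ⟨hQ1, hm, ?_⟩
    intro x hx y hy hxy
    subst hxy
    exact hd x hy ((h1 x).1 hx)
  · rw [List.length_append]
    omega
  · intro x
    rw [List.mem_append, h1]
  · intro e
    rw [hce, List.mem_append, ← h4, hce1, List.mem_append, List.mem_singleton]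
    constructor
    · rintro (h | h)
      · refine Or.inl ⟨Or.inl h, ?_⟩
        rintro rfl
        exact hnot h
      · exact Or.inr h
    · rintro (⟨h | h, h'⟩ | h)
      · exact Or.inl h
      · exact absurd h h'
      · exact Or.inr h

/-- Replace all virtual edges. Induction on `Pb`. -/
theorem exp_all (Pb : List (V × List V × V)) (hnd : (Pb.flatMap bl).Nodup) (Q : List V)
    (hQ : Q.Nodup) (h3 : 3 ≤ Q.length) (hab : ∀ t ∈ Pb, s(t.1, t.2.2) ∈ ce Q)
    (hd : ∀ t ∈ Pb, ∀ x ∈ t.2.1, x ∉ Q) :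
    ∃ Q' : List V, Q'.Nodup ∧ 3 ≤ Q'.length ∧
      (∀ x, x ∈ Q' ↔ x ∈ Q ∨ ∃ t ∈ Pb, x ∈ t.2.1) ∧
      ∀ e ∈ ce Q', (e ∈ ce Q ∧ ∀ t ∈ Pb, e ≠ s(t.1, t.2.2)) ∨ ∃ t ∈ Pb, e ∈ pe (bl t) := by
  induction Pb generalizing Q with
  | nil =>
    refine ⟨Q, hQ, h3, ?_, ?_⟩
    · intro x
      simp
    · intro e he
      exact Or.inl ⟨he, fun t ht => absurd ht List.not_mem_nil⟩
  | cons t Pb ih =>
    rw [List.flatMap_cons, List.nodup_append] at hnd
    obtain ⟨n1, n2, n3⟩ := hnd
    have hm : t.2.1.Nodup := by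
      unfold bl at n1
      rw [List.nodup_cons, List.nodup_append] at n1
      exact n1.2.1
    have hmem : ∀ t' ∈ Pb, ∀ x ∈ bl t, x ∉ bl t' := by
      intro t' ht' x hx hx'
      exact n3 x hx x (List.mem_flatMap.2 ⟨t', ht', hx'⟩) rfl
    have hin : ∀ (t' : V × List V × V) (x : V), x ∈ t'.2.1 → x ∈ bl t' := by
      intro t' x hx
      unfold bl
      simp [hx]
    have hfst : ∀ t' : V × List V × V, t'.1 ∈ bl t' := by
      intro t'
      unfold bl
      simp
    have hsnd : ∀ t' : V × List V × V, t'.2.2 ∈ bl t' := by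
      intro t'
      unfold bl
      simp
    obtain ⟨Q1, q1, q2, q3, q4⟩ := exp_one Q hQ h3 t (hab t List.mem_cons_self) hm
      (hd t List.mem_cons_self)
    obtain ⟨Q', r1, r2, r3, r4⟩ := ih n2 Q1 q1 q2 (fun t' ht' => by
        rw [q4]
        refine Or.inl ⟨hab t' (List.mem_cons_of_mem _ ht'), fun h => ?_⟩
        have h1 : t.1 ∈ s(t'.1, t'.2.2) := by
          rw [h]
          exact Sym2.mem_mk_left _ _
        rcases Sym2.mem_iff.1 h1 with h2 | h2
        · exact hmem t' ht' t.1 (hfst t) (by rw [h2]; exact hfst t')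
        · exact hmem t' ht' t.1 (hfst t) (by rw [h2]; exact hsnd t'))
      (fun t' ht' x hx hxQ => by
        rcases (q3 x).1 hxQ with h | h
        · exact hd t' (List.mem_cons_of_mem _ ht') x hx h
        · exact hmem t' ht' x (hin t x h) (hin t' x hx))
    refine ⟨Q', r1, r2, ?_, ?_⟩
    · intro x
      rw [r3, q3]
      simp only [List.mem_cons, exists_eq_or_imp]
      rw [or_assoc]
    · intro e he
      rcases r4 e he with ⟨h, h'⟩ | ⟨t', ht', h⟩
      · rcases (q4 e).1 h with ⟨h1, h2⟩ | h1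
        · left
          refine ⟨h1, fun t' ht' => ?_⟩
          rcases List.mem_cons.1 ht' with rfl | ht'
          · exact h2
          · exact h' t' ht'
        · exact Or.inr ⟨t, List.mem_cons_self, h1⟩
      · exact Or.inr ⟨t', List.mem_cons_of_mem _ ht', h⟩

end Pool.Agent.W_cd7020_h81r
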