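import Pool.Agent.W_cd7020_h81r.CVir
import Pool.Agent.W_cd7020_h81r.CExp

/-!
# From the virtual cycle to the cycle
-/

set_option autoImplicit false

namespace Pool.Agent.W_cd7020_h81r

open Finset Pool.Agent.W_cd7020_h81 Pool.Agent.W_cd7020_h81b Pool.Agent.W_cd7020_h81k

variable {V κ : Type*} [DecidableEq V] [DecidableEq κ] [Fintype V]

omit [DecidableEq V] [Fintype V] in
theorem CBack_pe {A : Type*} (f : A → V) (l : List A) :
    pe (l.map f) = (pe l).map (Sym2.map f) := by
  induction l with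
  | nil => rfl
  | cons a l ih =>
    cases l with
    | nil => rfl
    | cons b l =>
      have h1 : pe ((a :: b :: l).map f) = s(f a, f b) :: pe ((b :: l).map f) := rfl
      have h2 : (pe (a :: b :: l)).map (Sym2.map f) =
        s(f a, f b) :: (pe (b :: l)).map (Sym2.map f) := rfl
      rw [h1, h2, ih]

omit [DecidableEq V] [Fintype V] in
theorem CBack_ce {A : Type*} (f : A → V) (l : List A) :
    ce (l.map f) = (ce l).map (Sym2.map f) := by
  unfold ce
  rw [← CBack_pe, List.map_append, List.map_take]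

omit [DecidableEq κ] [Fintype V] in
theorem CBack_out {col : Sym2 V → κ} {S : Finset κ} {W : Finset V}
    {Pb : List (V × List V × V)} (hB : Brd col S W Pb) {t : V × List V × V} (ht : t ∈ Pb) :
    t.1 ∉ W ∧ t.2.2 ∉ W := by
  have hnd := List.nodup_flatMap.1 hB.nd
  have key : ∀ x, x ∈ bl t → x ∉ t.2.1 → x ∉ W := by
    intro x hx hx' hxW
    obtain ⟨t', ht', hxt'⟩ := (hB.inn x).1 hxW
    by_cases htt : t = t'
    · rw [← htt] at hxt'
      exact hx' hxt'
    · have hs : Std.Symm (Function.onFun List.Disjoint (bl : V × List V × V → List V)) :=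
        ⟨fun _ _ h => List.Disjoint.symm h⟩
      have hdis := List.Pairwise.forall hnd.2 ht ht' htt
      refine hdis hx ?_
      unfold bl
      exact List.mem_cons_of_mem _ (List.mem_append_left _ hxt')
  have h1 := hnd.1 t ht
  unfold bl at h1
  rw [List.nodup_cons, List.nodup_append] at h1
  constructor
  · refine key _ ?_ ?_
    · unfold bl
      exact List.mem_cons_self
    · intro h
      exact h1.1 (List.mem_append_left _ h)
  · refine key _ ?_ ?_
    · unfold bl
      exact List.mem_cons_of_mem _ (List.mem_append_right _ (List.mem_singleton_self _))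
    · intro h
      exact h1.2.2.2 _ h _ (List.mem_singleton_self _) rfl

/-- From the cycle for the virtual colouring to the cycle for `col`: the list of `Cyc U₁ E₁` contains exactly
the pairs of `E₁` (`|E₁| = |U₁|`, `ce_length`); map it to `V`, then `exp_all`. The edges of the new
cycle: edges of `E₁` which are not virtual (distinct colours in `S`) and edges of the bridges (distinct
colours not in `S`). -/
theorem back (col : Sym2 V → κ) (S : Finset κ) (W : Finset V)
    (Pb : List (V × List V × V)) (hB : Brd col S W Pb) (U₁ : Finset {x // x ∉ W})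
    (E₁ : Finset (Sym2 {x // x ∉ W})) (hC : Cyc U₁ E₁) (hc : E₁.card = U₁.card)
    (h3 : 3 ≤ U₁.card) (hr : Rb (vcol col W Pb) E₁) (hF : vE W Pb ⊆ E₁)
    (hQ : cE (vcol col W Pb) (E₁ \ vE W Pb) ⊆ vS W S) :
    ∃ (U : Finset V) (E : Finset (Sym2 V)), Cyc U E ∧ E.card = U.card ∧ Rb col E ∧
      3 ≤ U.card ∧ U.card = U₁.card + W.card := by
  obtain ⟨Q, hQn, hQm, hQe⟩ := hC
  have hlen : Q.length = U₁.card := by
    rw [← List.toFinset_card_of_nodup hQn]
    congr 1
    ext v
    rw [List.mem_toFinset, hQm]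
  -- the pairs of the list are the edges
  have hmem : ∀ e, e ∈ ce Q ↔ e ∈ E₁ := by
    have h1 : E₁ = (ce Q).toFinset := by
      refine Finset.eq_of_subset_of_card_le (fun e he => List.mem_toFinset.2 (hQe e he)) ?_
      refine (List.toFinset_card_le _).trans ?_
      rw [ce_length, hlen, hc]
    intro e
    rw [h1, List.mem_toFinset]
  set Q0 : List V := Q.map Subtype.val with hQ0
  have hQ0n : Q0.Nodup := hQn.map Subtype.val_injective
  have hQ0l : Q0.length = Q.length := List.length_map _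
  have hQ0W : ∀ x ∈ Q0, x ∉ W := by
    intro x hx
    obtain ⟨y, _, rfl⟩ := List.mem_map.1 hx
    exact y.2
  have hce0 : ∀ e, e ∈ ce Q0 → ∃ e₀ ∈ E₁, Sym2.map Subtype.val e₀ = e := by
    intro e he
    rw [hQ0, CBack_ce] at he
    obtain ⟨e₀, h1, h2⟩ := List.mem_map.1 he
    exact ⟨e₀, (hmem e₀).1 h1, h2⟩
  have hab : ∀ t ∈ Pb, s(t.1, t.2.2) ∈ ce Q0 := by
    intro t ht
    obtain ⟨h1, h2⟩ := CBack_out hB ht
    rw [hQ0, CBack_ce]
    refine List.mem_map.2 ⟨s(⟨t.1, h1⟩, ⟨t.2.2, h2⟩), (hmem _).2 (hF ?_), ?_⟩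
    · unfold vE
      rw [Finset.mem_filter]
      exact ⟨Finset.mem_univ _, t, ht, by rw [Sym2.map_mk]⟩
    · rw [Sym2.map_mk]
  have hd : ∀ t ∈ Pb, ∀ x ∈ t.2.1, x ∉ Q0 := by
    intro t ht x hx hxQ
    exact hQ0W x hxQ ((hB.inn x).2 ⟨t, ht, hx⟩)
  obtain ⟨Q', hn', h3', hm', he'⟩ := exp_all Pb hB.nd Q0 hQ0n (by rw [hQ0l, hlen]; exact h3) hab hd
  have hUl : Q'.toFinset.card = Q'.length := List.toFinset_card_of_nodup hn'
  refine ⟨Q'.toFinset, (ce Q').toFinset, ?_, ?_, ?_, ?_, ?_⟩
  · exact ⟨Q', hn', fun v => List.mem_toFinset.symm, fun e he => List.mem_toFinset.1 he⟩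
  · rw [hUl, List.toFinset_card_of_nodup (ce_nodup Q' hn' h3'), ce_length]
  · -- the old edges
    have hold : ∀ e, e ∈ ce Q0 → (∀ t ∈ Pb, e ≠ s(t.1, t.2.2)) →
        ∃ e₀ ∈ E₁, e₀ ∉ vE W Pb ∧ Sym2.map Subtype.val e₀ = e ∧
          vcol col W Pb e₀ = Sum.inl (col e) ∧ col e ∈ S := by
      intro e he hne
      obtain ⟨e₀, h1, h2⟩ := hce0 e he
      have h3 : e₀ ∉ vE W Pb := by
        intro h
        unfold vE at h
        rw [Finset.mem_filter] at h
        obtain ⟨_, t, ht, h4⟩ := h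
        exact hne t ht (h2.symm.trans h4)
      have h4 : vcol col W Pb e₀ = Sum.inl (col e) := by
        unfold vcol
        rw [if_neg h3, h2]
      refine ⟨e₀, h1, h3, h2, h4, ?_⟩
      have h5 : vcol col W Pb e₀ ∈ vS W S := by
        apply hQ
        unfold cE
        exact Finset.mem_image_of_mem _ (Finset.mem_sdiff.2 ⟨h1, h3⟩)
      rw [h4] at h5
      unfold vS at h5
      obtain ⟨k, hk, hk'⟩ := Finset.mem_map.1 h5
      have h6 : k = col e := Sum.inl_injective hk'
      rw [← h6]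
      exact hk
    intro e he e' he'' heq
    rw [List.mem_toFinset] at he he''
    rcases he' e he with ⟨h1, h2⟩ | ⟨t, ht, h1⟩
    · obtain ⟨e₀, a1, _, a3, a4, a5⟩ := hold e h1 h2
      rcases he' e' he'' with ⟨g1, g2⟩ | ⟨t', ht', g1⟩
      · obtain ⟨e₁, b1, _, b3, b4, _⟩ := hold e' g1 g2
        have h5 : e₀ = e₁ := hr e₀ a1 e₁ b1 (by rw [a4, b4, heq])
        rw [← a3, ← b3, h5]
      · exact absurd (heq ▸ a5) (hB.colS t' ht' e' g1)
    · rcases he' e' he'' with ⟨g1, g2⟩ | ⟨t', ht', g1⟩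
      · obtain ⟨_, _, _, _, _, b5⟩ := hold e' g1 g2
        exact absurd (heq.symm ▸ b5) (hB.colS t ht e h1)
      · exact List.inj_on_of_nodup_map hB.rb (List.mem_flatMap.2 ⟨t, ht, h1⟩)
          (List.mem_flatMap.2 ⟨t', ht', g1⟩) heq
  · rw [hUl]
    exact h3'
  · have h5 : Q'.toFinset = Q0.toFinset ∪ W := by
      ext x
      rw [List.mem_toFinset, Finset.mem_union, List.mem_toFinset, hm', hB.inn]
    rw [h5, Finset.card_union_of_disjoint, List.toFinset_card_of_nodup hQ0n, hQ0l, hlen]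
    rw [Finset.disjoint_left]
    intro x hx
    exact hQ0W x (List.mem_toFinset.1 hx)

end Pool.Agent.W_cd7020_h81r
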