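import Pool.Agent.W_cd7020_h81.Pe

/-!
# Bridges: paths with inner vertices in `W`
-/

set_option autoImplicit false

namespace Pool.Agent.W_cd7020_h81r

open Finset Pool.Agent.W_cd7020_h81

variable {V κ : Type*} [DecidableEq V] [DecidableEq κ]

/-- The path of a bridge: first vertex, inner vertices, last vertex. -/
def bl (t : V × List V × V) : List V := t.1 :: (t.2.1 ++ [t.2.2])

/-- A list of disjoint bridges whose inner vertices are exactly the vertices of `T`, the edges have
distinct colours outside `S`. -/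
structure Brd (col : Sym2 V → κ) (S : Finset κ) (T : Finset V) (Pb : List (V × List V × V)) :
    Prop where
  nd : (Pb.flatMap bl).Nodup
  inn : ∀ x, x ∈ T ↔ ∃ t ∈ Pb, x ∈ t.2.1
  colS : ∀ t ∈ Pb, ∀ e ∈ pe (bl t), col e ∉ S
  rb : ((Pb.flatMap (fun t => pe (bl t))).map col).Nodup

theorem CBrd_perm {col : Sym2 V → κ} {S : Finset κ} {T : Finset V} {Pb Pb' : List (V × List V × V)}
    (h : Brd col S T Pb) (hp : Pb.Perm Pb') : Brd col S T Pb' := by
  refine ⟨?_, fun x => ?_, fun t ht => ?_, ?_⟩
  · exact ((hp.flatMap_right bl).nodup_iff).1 h.nd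
  · rw [h.inn x]
    constructor
    · rintro ⟨t, ht, hx⟩
      exact ⟨t, hp.mem_iff.1 ht, hx⟩
    · rintro ⟨t, ht, hx⟩
      exact ⟨t, hp.mem_iff.2 ht, hx⟩
  · exact h.colS t (hp.mem_iff.2 ht)
  · exact (((hp.flatMap_right (fun t => pe (bl t))).map col).nodup_iff).1 h.rb

/-- Extension of a bridge by one vertex. -/
theorem CBrd_ext {col : Sym2 V → κ} {S : Finset κ} {T : Finset V} {L : List (V × List V × V)}
    {t t' : V × List V × V} (h : Brd col S T (t :: L)) (x y : V)
    (h1 : (bl t').Perm (y :: bl t)) (h2 : (pe (bl t')).Perm (s(x, y) :: pe (bl t)))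
    (h3 : t'.2.1.Perm (x :: t.2.1)) (hy : y ∉ (t :: L).flatMap bl) (hcS : col s(x, y) ∉ S)
    (hc : col s(x, y) ∉ ((t :: L).flatMap (fun t => pe (bl t))).map col) :
    Brd col S (insert x T) (t' :: L) := by
  refine ⟨?_, fun z => ?_, fun s hs => ?_, ?_⟩
  · have h4 : ((t' :: L).flatMap bl).Perm (y :: (t :: L).flatMap bl) := by
      rw [List.flatMap_cons, List.flatMap_cons, ← List.cons_append]
      exact h1.append_right _
    rw [h4.nodup_iff, List.nodup_cons]
    exact ⟨hy, h.nd⟩
  · rw [Finset.mem_insert, h.inn z]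
    constructor
    · rintro (rfl | ⟨s, hs, hz⟩)
      · exact ⟨t', List.mem_cons_self, h3.mem_iff.2 List.mem_cons_self⟩
      · rcases List.mem_cons.1 hs with rfl | hs
        · exact ⟨t', List.mem_cons_self, h3.mem_iff.2 (List.mem_cons_of_mem _ hz)⟩
        · exact ⟨s, List.mem_cons_of_mem _ hs, hz⟩
    · rintro ⟨s, hs, hz⟩
      rcases List.mem_cons.1 hs with rfl | hs
      · rcases List.mem_cons.1 (h3.mem_iff.1 hz) with rfl | hz
        · exact Or.inl rfl
        · exact Or.inr ⟨t, List.mem_cons_self, hz⟩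
      · exact Or.inr ⟨s, List.mem_cons_of_mem _ hs, hz⟩
  · rcases List.mem_cons.1 hs with rfl | hs
    · intro e he
      rcases List.mem_cons.1 (h2.mem_iff.1 he) with rfl | he
      · exact hcS
      · exact h.colS t List.mem_cons_self e he
    · exact h.colS s (List.mem_cons_of_mem _ hs)
  · have h4 : (((t' :: L).flatMap (fun t => pe (bl t))).map col).Perm
        (col s(x, y) :: ((t :: L).flatMap (fun t => pe (bl t))).map col) := by
      rw [List.flatMap_cons, List.flatMap_cons, ← List.map_cons, ← List.cons_append]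
      exact (h2.append_right _).map col
    rw [h4.nodup_iff, List.nodup_cons]
    exact ⟨hc, h.rb⟩

/-- A new bridge. -/
theorem CBrd_new {col : Sym2 V → κ} {S : Finset κ} {T : Finset V} {L : List (V × List V × V)}
    (h : Brd col S T L) (x y y' : V) (hx : x ∉ L.flatMap bl) (hy : y ∉ L.flatMap bl)
    (hy' : y' ∉ L.flatMap bl) (hxy : y ≠ x) (hxy' : y' ≠ x) (hyy' : y' ≠ y)
    (hcS : col s(x, y) ∉ S) (hcS' : col s(x, y') ∉ S)
    (hc : col s(x, y) ∉ (L.flatMap (fun t => pe (bl t))).map col)
    (hc' : col s(x, y') ∉ (L.flatMap (fun t => pe (bl t))).map col)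
    (hcc : col s(x, y) ≠ col s(x, y')) :
    Brd col S (insert x T) ((y, [x], y') :: L) := by
  have hb : bl (y, [x], y') = [y, x, y'] := rfl
  have hp : pe (bl (y, [x], y')) = [s(x, y), s(x, y')] := by
    rw [hb, Sym2.eq_swap (a := x) (b := y)]
    rfl
  refine ⟨?_, fun z => ?_, fun s hs => ?_, ?_⟩
  · rw [List.flatMap_cons, hb]
    simp only [List.cons_append, List.nil_append, List.nodup_cons, List.mem_cons, not_or]
    exact ⟨⟨hxy, hyy'.symm, hy⟩, ⟨hxy'.symm, hx⟩, hy', h.nd⟩
  · rw [Finset.mem_insert, h.inn z]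
    constructor
    · rintro (rfl | ⟨s, hs, hz⟩)
      · exact ⟨_, List.mem_cons_self, List.mem_singleton.2 rfl⟩
      · exact ⟨s, List.mem_cons_of_mem _ hs, hz⟩
    · rintro ⟨s, hs, hz⟩
      rcases List.mem_cons.1 hs with rfl | hs
      · exact Or.inl (List.mem_singleton.1 hz)
      · exact Or.inr ⟨s, hs, hz⟩
  · rcases List.mem_cons.1 hs with rfl | hs
    · intro e he
      rw [hp] at he
      rcases List.mem_cons.1 he with rfl | he
      · exact hcS
      · rw [List.mem_singleton.1 he]
        exact hcS'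
    · exact h.colS s hs
  · rw [List.flatMap_cons, hp]
    simp only [List.cons_append, List.nil_append, List.map_cons, List.nodup_cons, List.mem_cons,
      not_or]
    exact ⟨⟨hcc, hc⟩, hc', h.rb⟩

/-- A rainbow matching as a list of bridges without inner vertices. -/
theorem brd_start (col : Sym2 V → κ) (S : Finset κ) (M : Finset (Sym2 V))
    (hd : ∀ e ∈ M, ¬ e.IsDiag) (hm : ∀ e ∈ M, ∀ e' ∈ M, ∀ x, x ∈ e → x ∈ e' → e = e')
    (hr : Rb col M) (hS : ∀ e ∈ M, col e ∉ S) :
    ∃ Pb : List (V × List V × V), Brd col S ∅ Pb ∧ Pb.length = M.card ∧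
      (Pb.flatMap bl).length ≤ 2 * M.card ∧ (Pb.flatMap (fun t => pe (bl t))).length ≤ M.card := by
  obtain ⟨f, hf⟩ : ∃ f : Sym2 V → V × List V × V, ∀ e, f e = ((Quot.out e).1, [], (Quot.out e).2) :=
    ⟨_, fun _ => rfl⟩
  have hs : ∀ e : Sym2 V, s((Quot.out e).1, (Quot.out e).2) = e := fun e => Quot.out_eq e
  have hb : ∀ e, bl (f e) = [(Quot.out e).1, (Quot.out e).2] := fun e => by rw [hf]; rfl
  have hp : ∀ e, pe (bl (f e)) = [e] := by
    intro e
    rw [hb]
    show [s((Quot.out e).1, (Quot.out e).2)] = [e]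
    rw [hs]
  have h1 : (M.toList.map f).flatMap bl =
      M.toList.flatMap (fun e => [(Quot.out e).1, (Quot.out e).2]) := by
    rw [List.flatMap_map]
    exact List.flatMap_congr fun e _ => hb e
  have h2 : (M.toList.map f).flatMap (fun t => pe (bl t)) = M.toList := by
    rw [List.flatMap_map]
    have : M.toList.flatMap (fun e => pe (bl (f e))) = M.toList.flatMap (fun e => [e]) :=
      List.flatMap_congr fun e _ => hp e
    rw [this, List.flatMap_singleton']
  refine ⟨M.toList.map f, ⟨?_, fun x => ?_, fun t ht => ?_, ?_⟩, ?_, ?_, ?_⟩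
  · rw [h1, List.nodup_flatMap]
    refine ⟨fun e he => ?_, ?_⟩
    · have h3 := hd e (Finset.mem_toList.1 he)
      rw [← hs e] at h3
      simp only [List.nodup_cons, List.mem_singleton, List.nodup_nil, List.not_mem_nil,
        not_false_eq_true, and_true]
      intro h4
      exact h3 (Sym2.mk_isDiag_iff.2 h4)
    · have h3 : ∀ e ∈ M.toList, ∀ e' ∈ M.toList, e ≠ e' →
          List.Disjoint [(Quot.out e).1, (Quot.out e).2] [(Quot.out e').1, (Quot.out e').2] := by
        intro e he e' he' hne x hx hx'
        refine hne (hm e (Finset.mem_toList.1 he) e' (Finset.mem_toList.1 he') x ?_ ?_)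
        · rw [← hs e, Sym2.mem_iff]
          simpa using hx
        · rw [← hs e', Sym2.mem_iff]
          simpa using hx'
      exact (List.Nodup.pairwise_of_forall_ne M.nodup_toList h3)
  · constructor
    · intro h
      exact absurd h (Finset.notMem_empty x)
    · rintro ⟨t, ht, hx⟩
      obtain ⟨e, _, rfl⟩ := List.mem_map.1 ht
      rw [hf] at hx
      exact absurd hx List.not_mem_nil
  · obtain ⟨e, he, rfl⟩ := List.mem_map.1 ht
    intro e' he'
    rw [hp, List.mem_singleton] at he'
    rw [he']
    exact hS e (Finset.mem_toList.1 he)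
  · rw [h2]
    exact M.nodup_toList.map_on fun e he e' he' h =>
      hr e (Finset.mem_toList.1 he) e' (Finset.mem_toList.1 he') h
  · rw [List.length_map, Finset.length_toList]
  · rw [h1, List.length_flatMap]
    simp only [List.length_cons, List.length_nil, List.map_const', List.sum_replicate,
      Finset.length_toList, smul_eq_mul]
    omega
  · rw [h2, Finset.length_toList]

variable [Fintype V]

/-- Fresh vertices. -/
theorem CBrd_fresh (col : Sym2 V → κ) (hcol : Proper col) (S : Finset κ) (W : Finset V)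
    (A : List V) (B : List (Sym2 V)) (x : V)
    (hd : W.card + A.length + B.length + 3 ≤
      (univ.filter (fun y => y ≠ x ∧ col s(x, y) ∉ S)).card) (z : V) :
    ∃ y, y ≠ x ∧ col s(x, y) ∉ S ∧ y ∉ W ∧ y ∉ A ∧ col s(x, y) ∉ B.map col ∧ y ≠ z := by
  by_contra hcon
  push Not at hcon
  have h1 : univ.filter (fun y => y ≠ x ∧ col s(x, y) ∉ S) ⊆
      ((W ∪ A.toFinset) ∪ univ.filter (fun y => y ≠ x ∧ col s(x, y) ∈ (B.map col).toFinset)) ∪
        {z} := by
    intro y hy
    obtain ⟨_, h2, h3⟩ := Finset.mem_filter.1 hy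
    rw [Finset.mem_union, Finset.mem_union, Finset.mem_union, Finset.mem_filter,
      Finset.mem_singleton, List.mem_toFinset, List.mem_toFinset]
    by_cases h4 : y ∈ W
    · exact Or.inl (Or.inl (Or.inl h4))
    by_cases h5 : y ∈ A
    · exact Or.inl (Or.inl (Or.inr h5))
    by_cases h6 : col s(x, y) ∈ B.map col
    · exact Or.inl (Or.inr ⟨Finset.mem_univ _, h2, h6⟩)
    exact Or.inr (hcon y h2 h3 h4 h5 h6)
  have h2 : (univ.filter (fun y => y ≠ x ∧ col s(x, y) ∈ (B.map col).toFinset)).card ≤
      B.length := by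
    have h3 : (univ.filter (fun y => y ≠ x ∧ col s(x, y) ∈ (B.map col).toFinset)).card ≤
        (B.map col).toFinset.card := by
      refine Finset.card_le_card_of_injOn (fun y => col s(x, y)) (fun y hy => ?_)
        (fun y hy y' hy' h => ?_)
      · exact (Finset.mem_filter.1 hy).2.2
      · by_contra hne
        exact hcol x y y' (Finset.mem_filter.1 hy).2.1.symm (Finset.mem_filter.1 hy').2.1.symm
          hne h
    refine h3.trans ((List.toFinset_card_le _).trans ?_)
    rw [List.length_map]
  have h3 := Finset.card_le_card h1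
  have h4 := Finset.card_union_le ((W ∪ A.toFinset) ∪
    univ.filter (fun y => y ≠ x ∧ col s(x, y) ∈ (B.map col).toFinset)) {z}
  have h5 := Finset.card_union_le (W ∪ A.toFinset)
    (univ.filter (fun y => y ≠ x ∧ col s(x, y) ∈ (B.map col).toFinset))
  have h6 := Finset.card_union_le W A.toFinset
  have h7 := List.toFinset_card_le A
  rw [Finset.card_singleton] at h4
  omega

/-- One more hub `x`: if `x` is an end of a bridge, extend it by one fresh vertex outside `W`, otherwise
add the bridge `y, x, y'` with fresh vertices `y ≠ y'` outside `W` (the hub `x` is not an inner vertex, as these are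
in `T`). The fresh vertices avoid `W`, the vertices of the bridges and their colours. -/
theorem brd_step (col : Sym2 V → κ) (hcol : Proper col) (S : Finset κ) (W T : Finset V)
    (hT : T ⊆ W)
    (Pb : List (V × List V × V)) (hB : Brd col S T Pb) (x : V) (hx : x ∈ W) (hxT : x ∉ T)
    (hd : W.card + (Pb.flatMap bl).length + (Pb.flatMap (fun t => pe (bl t))).length + 3 ≤
      (univ.filter (fun y => y ≠ x ∧ col s(x, y) ∉ S)).card) :
    ∃ Pb' : List (V × List V × V), Brd col S (insert x T) Pb' ∧ Pb.length ≤ Pb'.length ∧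
      Pb'.length ≤ Pb.length + 1 ∧
      (Pb'.flatMap bl).length ≤ (Pb.flatMap bl).length + 3 ∧
      (Pb'.flatMap (fun t => pe (bl t))).length ≤
        (Pb.flatMap (fun t => pe (bl t))).length + 2 := by
  have hfresh := CBrd_fresh col hcol S W (Pb.flatMap bl) (Pb.flatMap (fun t => pe (bl t))) x hd
  obtain ⟨y, hyx, hyS, hyW, hyA, hyB, _⟩ := hfresh x
  by_cases hxb : x ∈ Pb.flatMap bl
  · obtain ⟨t, ht, hxt⟩ := List.mem_flatMap.1 hxb
    obtain ⟨L₁, L₂, hL⟩ := List.append_of_mem ht
    have hperm : Pb.Perm (t :: (L₁ ++ L₂)) := by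
      rw [hL]
      exact List.perm_middle
    have hB' := CBrd_perm hB hperm
    have hyA' : y ∉ (t :: (L₁ ++ L₂)).flatMap bl := fun h =>
      hyA ((hperm.flatMap_right bl).mem_iff.2 h)
    have hyB' : col s(x, y) ∉ ((t :: (L₁ ++ L₂)).flatMap (fun t => pe (bl t))).map col := fun h =>
      hyB (((hperm.flatMap_right (fun t => pe (bl t))).map col).mem_iff.2 h)
    have key : ∀ t' : V × List V × V, (bl t').Perm (y :: bl t) →
        (pe (bl t')).Perm (s(x, y) :: pe (bl t)) → t'.2.1.Perm (x :: t.2.1) →
        ∃ Pb' : List (V × List V × V), Brd col S (insert x T) Pb' ∧ Pb.length ≤ Pb'.length ∧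
          Pb'.length ≤ Pb.length + 1 ∧
          (Pb'.flatMap bl).length ≤ (Pb.flatMap bl).length + 3 ∧
          (Pb'.flatMap (fun t => pe (bl t))).length ≤
            (Pb.flatMap (fun t => pe (bl t))).length + 2 := by
      intro t' h1 h2 h3
      refine ⟨t' :: (L₁ ++ L₂), CBrd_ext hB' x y h1 h2 h3 hyA' hyS hyB', ?_, ?_, ?_, ?_⟩
      · rw [hperm.length_eq, List.length_cons, List.length_cons]
      · rw [hperm.length_eq, List.length_cons, List.length_cons]
        omega
      · rw [(hperm.flatMap_right bl).length_eq, List.flatMap_cons, List.flatMap_cons,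
          List.length_append, List.length_append, h1.length_eq, List.length_cons]
        omega
      · rw [(hperm.flatMap_right (fun t => pe (bl t))).length_eq, List.flatMap_cons,
          List.flatMap_cons, List.length_append, List.length_append, h2.length_eq,
          List.length_cons]
        omega
    have hxt' : x = t.1 ∨ x ∈ t.2.1 ∨ x = t.2.2 := by
      unfold bl at hxt
      rw [List.mem_cons, List.mem_append, List.mem_singleton] at hxt
      exact hxt
    rcases hxt' with h | h | h
    · refine key (y, x :: t.2.1, t.2.2) ?_ ?_ (List.Perm.refl _)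
      · have : bl (y, x :: t.2.1, t.2.2) = y :: bl t := by
          unfold bl
          rw [h]
          rfl
        rw [this]
      · have : pe (bl (y, x :: t.2.1, t.2.2)) = s(x, y) :: pe (bl t) := by
          unfold bl
          rw [h, Sym2.eq_swap (a := t.1) (b := y)]
          rfl
        rw [this]
    · exact absurd ((hB.inn x).2 ⟨t, ht, h⟩) hxT
    · have hbt : bl (t.1, t.2.1 ++ [x], y) = bl t ++ [y] := by
        unfold bl
        rw [h]
        simp
      refine key (t.1, t.2.1 ++ [x], y) ?_ ?_ ?_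
      · rw [hbt]
        exact (List.perm_append_comm (l₁ := bl t) (l₂ := [y]))
      · have hne : bl t ≠ [] := by
          unfold bl
          simp
        have hlast : (bl t).getLast hne = x := by
          have h4 : bl t = (t.1 :: t.2.1) ++ [x] := by
            unfold bl
            rw [h]
            rfl
          simp only [h4, List.getLast_append_singleton]
        rw [hbt, pe_append' (bl t) [y] hne (by simp), hlast]
        exact (List.perm_append_comm (l₁ := pe (bl t)) (l₂ := [s(x, y)]))
      · exact (List.perm_append_comm (l₁ := t.2.1) (l₂ := [x]))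
  · obtain ⟨y', hyx', hyS', hyW', hyA', hyB', hyy⟩ := hfresh y
    refine ⟨(y, [x], y') :: Pb, CBrd_new hB x y y' hxb hyA hyA' hyx hyx' hyy hyS hyS' hyB hyB'
      (hcol x y y' hyx.symm hyx'.symm hyy.symm), ?_, ?_, ?_, ?_⟩
    · rw [List.length_cons]
      omega
    · rw [List.length_cons]
    · rw [List.flatMap_cons, List.length_append]
      have : (bl (y, [x], y')).length = 3 := rfl
      omega
    · rw [List.flatMap_cons, List.length_append]
      have : (pe (bl (y, [x], y'))).length = 2 := rfl
      omega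

/-- All hubs are inner vertices. -/
theorem brd_exists (col : Sym2 V → κ) (hcol : Proper col) (S : Finset κ) (W : Finset V)
    (M : Finset (Sym2 V)) (hd : ∀ e ∈ M, ¬ e.IsDiag)
    (hm : ∀ e ∈ M, ∀ e' ∈ M, ∀ x, x ∈ e → x ∈ e' → e = e')
    (hr : Rb col M) (hS : ∀ e ∈ M, col e ∉ S)
    (hW : ∀ x ∈ W, 3 * M.card + 6 * W.card + 3 ≤
      (univ.filter (fun y => y ≠ x ∧ col s(x, y) ∉ S)).card) :
    ∃ Pb : List (V × List V × V), Brd col S W Pb ∧ M.card ≤ Pb.length ∧
      Pb.length ≤ M.card + W.card := by
  have key : ∀ T : Finset V, T ⊆ W → ∃ Pb : List (V × List V × V), Brd col S T Pb ∧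
      M.card ≤ Pb.length ∧ Pb.length ≤ M.card + T.card ∧
      (Pb.flatMap bl).length ≤ 2 * M.card + 3 * T.card ∧
      (Pb.flatMap (fun t => pe (bl t))).length ≤ M.card + 2 * T.card := by
    intro T
    induction T using Finset.induction_on with
    | empty =>
      intro _
      obtain ⟨Pb, h1, h2, h3, h4⟩ := brd_start col S M hd hm hr hS
      refine ⟨Pb, h1, h2.ge, by omega, by omega, by omega⟩
    | insert x T hxT ih =>
      intro hT
      obtain ⟨hxW, hTW⟩ := Finset.insert_subset_iff.1 hT
      obtain ⟨Pb, h1, h2, h3, h4, h5⟩ := ih hTW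
      have h6 := hW x hxW
      have h7 : (insert x T).card = T.card + 1 := Finset.card_insert_of_notMem hxT
      have h8 := Finset.card_le_card hTW
      obtain ⟨Pb', g1, g2, g3, g4, g5⟩ := brd_step col hcol S W T hTW Pb h1 x hxW hxT (by omega)
      exact ⟨Pb', g1, by omega, by omega, by omega, by omega⟩
  obtain ⟨Pb, h1, h2, h3, _, _⟩ := key W (Finset.Subset.refl W)
  exact ⟨Pb, h1, h2, h3⟩

end Pool.Agent.W_cd7020_h81r
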