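import Pool.Agent.W_cd7020_h81b.Par

/-!
# Counting missing colours
-/

set_option autoImplicit false

namespace Pool.Agent.W_cd7020_h81r

open Finset Pool.Agent.W_cd7020_h81 Pool.Agent.W_cd7020_h81b

variable {V κ : Type*} [DecidableEq V] [DecidableEq κ] [Fintype V]

/-- The colours of `S` missing at `x`. -/
noncomputable def miss (col : Sym2 V → κ) (S : Finset κ) (x : V) : ℕ :=
  (S.filter (fun k => par col k x = x)).card

/-- Every colour of `S` which is not missing at `x` gives one edge at `x`. -/
theorem deg_S (col : Sym2 V → κ) (hcol : Proper col) (S : Finset κ) (x : V) :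
    (univ.filter (fun y => y ≠ x ∧ col s(x, y) ∈ S)).card + miss col S x = S.card := by
  have h1 := par_count col hcol S x (univ : Finset V)
  rw [h1]
  unfold miss
  have h2 : (S.filter (fun k => par col k x ≠ x ∧ par col k x ∈ (univ : Finset V))) =
      S.filter (fun k => ¬ par col k x = x) := by
    refine Finset.filter_congr (fun k _ => ?_)
    simp
  rw [h2, add_comm]
  exact Finset.card_filter_add_card_filter_not _

/-- The other edges at `x`. -/
theorem deg_nS (col : Sym2 V → κ) (hcol : Proper col) (S : Finset κ) (x : V) :
    (univ.filter (fun y => y ≠ x ∧ col s(x, y) ∉ S)).card + S.card + 1 =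
      Fintype.card V + miss col S x := by
  have h1 := deg_S col hcol S x
  have h2 : (univ.filter (fun y => y ≠ x ∧ col s(x, y) ∈ S)).card +
      (univ.filter (fun y => y ≠ x ∧ col s(x, y) ∉ S)).card =
      (univ.filter (fun y : V => y ≠ x)).card := by
    rw [← Finset.filter_filter, ← Finset.filter_filter]
    exact Finset.card_filter_add_card_filter_not _
  have h3 : (univ.filter (fun y : V => y ≠ x)).card + 1 = Fintype.card V := by
    rw [Finset.filter_ne' univ x, Finset.card_erase_add_one (Finset.mem_univ x), Finset.card_univ]
  omega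

/-- Exchange of sums. -/
theorem miss_sum (col : Sym2 V → κ) (S : Finset κ) (a : ℕ)
    (hS : ∀ k ∈ S, (univ.filter (fun x => par col k x = x)).card * a ≤ Fintype.card V) :
    (∑ x, miss col S x) * a ≤ S.card * Fintype.card V := by
  have h1 : ∑ x, miss col S x = ∑ k ∈ S, (univ.filter (fun x => par col k x = x)).card := by
    unfold miss
    simp_rw [Finset.card_filter]
    rw [Finset.sum_comm]
  rw [h1, Finset.sum_mul]
  calc ∑ k ∈ S, (univ.filter (fun x => par col k x = x)).card * a
      ≤ ∑ _k ∈ S, Fintype.card V := Finset.sum_le_sum hS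
    _ = S.card * Fintype.card V := by rw [Finset.sum_const, smul_eq_mul]

/-- `|S| a ≤ (n - 1) a + |S|`: sum of `deg_S` over all `x` (each first term is at most `n - 1`) and `miss_sum`. -/
theorem S_card (col : Sym2 V → κ) (hcol : Proper col) (S : Finset κ) (a : ℕ)
    (hS : ∀ k ∈ S, (univ.filter (fun x => par col k x = x)).card * a ≤ Fintype.card V)
    (hV : 0 < Fintype.card V) :
    S.card * a ≤ (Fintype.card V - 1) * a + S.card := by
  have h1 : ∑ x : V, ((univ.filter (fun y => y ≠ x ∧ col s(x, y) ∈ S)).card + miss col S x) =
      Fintype.card V * S.card := by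
    rw [Finset.sum_congr rfl (fun x _ => deg_S col hcol S x), Finset.sum_const, smul_eq_mul,
      Finset.card_univ]
  have h2 : ∑ x : V, (univ.filter (fun y => y ≠ x ∧ col s(x, y) ∈ S)).card ≤
      Fintype.card V * (Fintype.card V - 1) := by
    calc ∑ x : V, (univ.filter (fun y => y ≠ x ∧ col s(x, y) ∈ S)).card
        ≤ ∑ _x : V, (Fintype.card V - 1) := by
          refine Finset.sum_le_sum (fun x _ => ?_)
          have h4 : (univ.filter (fun y => y ≠ x ∧ col s(x, y) ∈ S)) ⊆ univ.erase x := by
            intro y hy
            rw [Finset.mem_filter] at hy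
            exact Finset.mem_erase.2 ⟨hy.2.1, Finset.mem_univ _⟩
          calc _ ≤ (univ.erase x).card := Finset.card_le_card h4
            _ = Fintype.card V - 1 := by
              rw [Finset.card_erase_of_mem (Finset.mem_univ x), Finset.card_univ]
      _ = _ := by rw [Finset.sum_const, smul_eq_mul, Finset.card_univ]
  rw [Finset.sum_add_distrib] at h1
  have h3 := miss_sum col S a hS
  refine Nat.le_of_mul_le_mul_left ?_ hV
  calc Fintype.card V * (S.card * a) = (Fintype.card V * S.card) * a := by ring
    _ = (∑ x : V, (univ.filter (fun y => y ≠ x ∧ col s(x, y) ∈ S)).card) * a +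
        (∑ x : V, miss col S x) * a := by rw [← h1, add_mul]
    _ ≤ (Fintype.card V * (Fintype.card V - 1)) * a + S.card * Fintype.card V :=
        Nat.add_le_add (Nat.mul_le_mul_right _ h2) h3
    _ = Fintype.card V * ((Fintype.card V - 1) * a + S.card) := by ring

/-- The hubs: vertices where many colours of `S` are missing. -/
noncomputable def hubs (col : Sym2 V → κ) (S : Finset κ) (b : ℕ) : Finset V :=
  univ.filter (fun x => Fintype.card V < miss col S x * b)

/-- There are few hubs: `|hubs| n ≤ b ∑ miss`, times `a`. -/
theorem hubs_card (col : Sym2 V → κ) (S : Finset κ) (a b : ℕ)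
    (hS : ∀ k ∈ S, (univ.filter (fun x => par col k x = x)).card * a ≤ Fintype.card V)
    (hV : 0 < Fintype.card V) : (hubs col S b).card * a ≤ S.card * b := by
  have h3 := miss_sum col S a hS
  refine Nat.le_of_mul_le_mul_left ?_ hV
  have h1 : (hubs col S b).card * Fintype.card V ≤ (∑ x : V, miss col S x) * b := by
    calc (hubs col S b).card * Fintype.card V
        = ∑ _x ∈ hubs col S b, Fintype.card V := by rw [Finset.sum_const, smul_eq_mul]
      _ ≤ ∑ x ∈ hubs col S b, miss col S x * b := by
          refine Finset.sum_le_sum (fun x hx => ?_)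
          unfold hubs at hx
          rw [Finset.mem_filter] at hx
          exact hx.2.le
      _ ≤ ∑ x : V, miss col S x * b :=
          Finset.sum_le_sum_of_subset (Finset.subset_univ _)
      _ = (∑ x : V, miss col S x) * b := by rw [Finset.sum_mul]
  calc Fintype.card V * ((hubs col S b).card * a)
      = ((hubs col S b).card * Fintype.card V) * a := by ring
    _ ≤ ((∑ x : V, miss col S x) * b) * a := Nat.mul_le_mul_right _ h1
    _ = ((∑ x : V, miss col S x) * a) * b := by ring
    _ ≤ (S.card * Fintype.card V) * b := Nat.mul_le_mul_right _ h3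
    _ = Fintype.card V * (S.card * b) := by ring

end Pool.Agent.W_cd7020_h81r
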