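import Pool.Agent.W_cd7020_h81r.CHub
import Pool.Agent.W_cd7020_h81r.CBrd
import Pool.Agent.W_cd7020_h81k.KDefs

/-!
# The virtual colouring
-/

set_option autoImplicit false

namespace Pool.Agent.W_cd7020_h81r

open Finset Pool.Agent.W_cd7020_h81 Pool.Agent.W_cd7020_h81b Pool.Agent.W_cd7020_h81k

variable {V κ : Type*} [DecidableEq V] [DecidableEq κ] [Fintype V]

/-- The virtual edges: the pairs of ends of the bridges. -/
def vE (W : Finset V) (Pb : List (V × List V × V)) : Finset (Sym2 {x // x ∉ W}) :=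
  univ.filter (fun e => ∃ t ∈ Pb, e.map Subtype.val = s(t.1, t.2.2))

/-- The virtual edges get new colours. -/
def vcol (col : Sym2 V → κ) (W : Finset V) (Pb : List (V × List V × V))
    (e : Sym2 {x // x ∉ W}) : κ ⊕ Sym2 {x // x ∉ W} :=
  if e ∈ vE W Pb then Sum.inr e else Sum.inl (col (e.map Subtype.val))

/-- The colours of `S`. -/
def vS (W : Finset V) (S : Finset κ) : Finset (κ ⊕ Sym2 {x // x ∉ W}) :=
  S.map ⟨Sum.inl, Sum.inl_injective⟩

theorem CVir_map (W : Finset V) (x y : {x // x ∉ W}) :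
    (s(x, y) : Sym2 {x // x ∉ W}).map Subtype.val = s(x.1, y.1) := rfl

theorem CVir_in (col : Sym2 V → κ) (W : Finset V) (Pb : List (V × List V × V))
    (e : Sym2 {x // x ∉ W}) (h : e ∈ vE W Pb) : vcol col W Pb e = Sum.inr e := if_pos h

theorem CVir_out (col : Sym2 V → κ) (W : Finset V) (Pb : List (V × List V × V))
    (e : Sym2 {x // x ∉ W}) (h : e ∉ vE W Pb) :
    vcol col W Pb e = Sum.inl (col (e.map Subtype.val)) := if_neg h

theorem vcol_proper (col : Sym2 V → κ) (hcol : Proper col) (W : Finset V)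
    (Pb : List (V × List V × V)) : Proper (vcol col W Pb) := by
  intro x y z hxy hxz hyz h
  by_cases h1 : s(x, y) ∈ vE W Pb
  · by_cases h2 : s(x, z) ∈ vE W Pb
    · rw [CVir_in col W Pb _ h1, CVir_in col W Pb _ h2] at h
      exact hyz (Sym2.congr_right.1 (Sum.inr_injective h))
    · rw [CVir_in col W Pb _ h1, CVir_out col W Pb _ h2] at h
      exact absurd h (by simp)
  · by_cases h2 : s(x, z) ∈ vE W Pb
    · rw [CVir_out col W Pb _ h1, CVir_in col W Pb _ h2] at h
      exact absurd h (by simp)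
    · rw [CVir_out col W Pb _ h1, CVir_out col W Pb _ h2] at h
      have h3 := Sum.inl_injective h
      rw [CVir_map, CVir_map] at h3
      exact hcol x.1 y.1 z.1 (fun h' => hxy (Subtype.ext h')) (fun h' => hxz (Subtype.ext h'))
        (fun h' => hyz (Subtype.ext h')) h3

theorem CVir_mem1 (t : V × List V × V) : t.1 ∈ bl t := by simp [bl]

theorem CVir_mem2 (t : V × List V × V) : t.2.2 ∈ bl t := by simp [bl]

theorem CVir_memi (t : V × List V × V) {x : V} (h : x ∈ t.2.1) : x ∈ bl t := by
  simp [bl, h]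

/-- The bridges are disjoint. -/
theorem CVir_uniq {col : Sym2 V → κ} {S : Finset κ} {W : Finset V}
    {Pb : List (V × List V × V)} (hB : Brd col S W Pb) {t t' : V × List V × V} (ht : t ∈ Pb)
    (ht' : t' ∈ Pb) {x : V} (hx : x ∈ bl t) (hx' : x ∈ bl t') : t = t' := by
  by_contra hne
  have h1 := (List.nodup_flatMap.1 hB.nd).2
  have : Std.Symm (Function.onFun List.Disjoint (bl : V × List V × V → List V)) :=
    ⟨fun a b h => List.Disjoint.symm h⟩
  have h2 := h1.forall ht ht' hne
  exact h2 hx hx'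

theorem CVir_ends {col : Sym2 V → κ} {S : Finset κ} {W : Finset V}
    {Pb : List (V × List V × V)} (hB : Brd col S W Pb) {t : V × List V × V} (ht : t ∈ Pb) :
    t.1 ∉ W ∧ t.2.2 ∉ W ∧ t.1 ≠ t.2.2 := by
  have h1 := (List.nodup_flatMap.1 hB.nd).1 t ht
  unfold bl at h1
  rw [List.nodup_cons, List.nodup_append] at h1
  obtain ⟨h2, -, -, h3⟩ := h1
  rw [List.mem_append] at h2
  push Not at h2
  refine ⟨fun h => ?_, fun h => ?_, fun h => ?_⟩
  · obtain ⟨t', ht', hx⟩ := (hB.inn _).1 h
    have h4 := CVir_uniq hB ht ht' (CVir_mem1 t) (CVir_memi t' hx)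
    rw [← h4] at hx
    exact h2.1 hx
  · obtain ⟨t', ht', hx⟩ := (hB.inn _).1 h
    have h4 := CVir_uniq hB ht ht' (CVir_mem2 t) (CVir_memi t' hx)
    rw [← h4] at hx
    exact h3 _ hx _ (List.mem_singleton.2 rfl) rfl
  · exact h2.2 (by rw [h]; exact List.mem_singleton.2 rfl)

theorem CVir_val_inj {W : Finset V} : Function.Injective
    (Sym2.map (Subtype.val : {x // x ∉ W} → V)) := Sym2.map.injective Subtype.val_injective

theorem CVir_sub {W : Finset V} {x : {x // x ∉ W}} {e : Sym2 {x // x ∉ W}} (hx : x ∈ e)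
    {t : V × List V × V} (he : e.map Subtype.val = s(t.1, t.2.2)) : x.1 ∈ bl t := by
  have h1 : x.1 ∈ e.map Subtype.val := Sym2.mem_map.2 ⟨x, hx, rfl⟩
  rw [he, Sym2.mem_iff] at h1
  rcases h1 with h1 | h1
  · rw [h1]
    exact CVir_mem1 t
  · rw [h1]
    exact CVir_mem2 t

theorem CVir_mat {col : Sym2 V → κ} {S : Finset κ} {W : Finset V}
    {Pb : List (V × List V × V)} (hB : Brd col S W Pb) {e e' : Sym2 {x // x ∉ W}}
    (he : e ∈ vE W Pb) (he' : e' ∈ vE W Pb) {x : {x // x ∉ W}} (hx : x ∈ e) (hx' : x ∈ e') :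
    e = e' := by
  obtain ⟨t, ht, h1⟩ := (Finset.mem_filter.1 he).2
  obtain ⟨t', ht', h1'⟩ := (Finset.mem_filter.1 he').2
  have h2 := CVir_uniq hB ht ht' (CVir_sub hx h1) (CVir_sub hx' h1')
  apply CVir_val_inj
  rw [h1, h1', h2]

/-- The virtual edges are a matching as the bridges are disjoint. -/
theorem vE_fix (col : Sym2 V → κ) (S : Finset κ) (W : Finset V)
    (Pb : List (V × List V × V)) (hB : Brd col S W Pb) :
    Fix (vcol col W Pb) (vS W S) (vE W Pb) := by
  refine ⟨?_, ?_, ?_, ?_⟩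
  · intro e he hd
    obtain ⟨t, ht, h1⟩ := (Finset.mem_filter.1 he).2
    have h2 := CVir_ends hB ht
    induction e using Sym2.ind with
    | _ x y =>
      rw [Sym2.mk_isDiag_iff] at hd
      rw [CVir_map, hd, Sym2.eq_iff] at h1
      rcases h1 with ⟨h3, h4⟩ | ⟨h3, h4⟩
      · exact h2.2.2 (h3.symm.trans h4)
      · exact h2.2.2 (h4.symm.trans h3)
  · intro e he e' he' x hx hx'
    exact CVir_mat hB he he' hx hx'
  · intro e he e' he' h
    rw [CVir_in col W Pb e he, CVir_in col W Pb e' he'] at h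
    exact Sum.inr_injective h
  · intro e he h
    rw [CVir_in col W Pb e he] at h
    unfold vS at h
    obtain ⟨k, -, hk⟩ := Finset.mem_map.1 h
    exact absurd hk (by simp)

/-- The ends of the bridges are not in `W` (`Brd.nd`, `Brd.inn`). -/
theorem vE_card (col : Sym2 V → κ) (S : Finset κ) (W : Finset V)
    (Pb : List (V × List V × V)) (hB : Brd col S W Pb) : (vE W Pb).card = Pb.length := by
  have hnd : Pb.Nodup := by
    have h1 := (List.nodup_flatMap.1 hB.nd).2
    refine h1.imp fun {a b} h hab => ?_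
    subst hab
    exact h (CVir_mem1 a) (CVir_mem1 a)
  rw [← List.toFinset_card_of_nodup hnd]
  symm
  refine Finset.card_bij (fun t ht => s(⟨t.1, (CVir_ends hB (List.mem_toFinset.1 ht)).1⟩,
    ⟨t.2.2, (CVir_ends hB (List.mem_toFinset.1 ht)).2.1⟩)) ?_ ?_ ?_
  · intro t ht
    exact Finset.mem_filter.2 ⟨Finset.mem_univ _, t, List.mem_toFinset.1 ht, rfl⟩
  · intro t ht t' ht' h
    have h1 := congrArg (Sym2.map Subtype.val) h
    rw [CVir_map, CVir_map] at h1
    have h2 : t.1 ∈ (s(t'.1, t'.2.2) : Sym2 V) := by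
      have h3 : t.1 ∈ (s(t.1, t.2.2) : Sym2 V) := Sym2.mem_mk_left _ _
      have h4 : (s(t.1, t.2.2) : Sym2 V) = s(t'.1, t'.2.2) := h1
      rwa [h4] at h3
    rw [Sym2.mem_iff] at h2
    refine CVir_uniq hB (List.mem_toFinset.1 ht) (List.mem_toFinset.1 ht') (CVir_mem1 t) ?_
    rcases h2 with h2 | h2
    · rw [h2]
      exact CVir_mem1 t'
    · rw [h2]
      exact CVir_mem2 t'
  · intro e he
    obtain ⟨t, ht, h1⟩ := (Finset.mem_filter.1 he).2
    refine ⟨t, List.mem_toFinset.2 ht, ?_⟩
    apply CVir_val_inj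
    rw [h1]
    rfl

theorem CVir_key (col : Sym2 V → κ) (hcol : Proper col) (W : Finset V)
    (Pb : List (V × List V × V)) (x : {x // x ∉ W}) (k : κ)
    (h : par (vcol col W Pb) (Sum.inl k) x = x) :
    par col k x.1 = x.1 ∨ par col k x.1 ∈ W ∨
      ∃ hp : par col k x.1 ∉ W, s(x, ⟨par col k x.1, hp⟩) ∈ vE W Pb := by
  by_cases h1 : par col k x.1 = x.1
  · exact Or.inl h1
  · by_cases h2 : par col k x.1 ∈ W
    · exact Or.inr (Or.inl h2)
    · refine Or.inr (Or.inr ⟨h2, ?_⟩)
      by_contra h3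
      have h4 : (⟨par col k x.1, h2⟩ : {x // x ∉ W}) ≠ x := fun h => h1 (congrArg Subtype.val h)
      have h5 : vcol col W Pb s(x, ⟨par col k x.1, h2⟩) = Sum.inl k := by
        rw [CVir_out col W Pb _ h3, CVir_map]
        congr 1
        exact par_col col k x.1 h1
      have h6 := par_eq (vcol col W Pb) (vcol_proper col hcol W Pb) (Sum.inl k) x _ h4 h5
      exact h4 (h6.symm.trans h)

theorem CVir_two {α : Type*} [Fintype α] [DecidableEq α] (F : Finset (Sym2 α)) :
    (univ.filter (fun x : α => ∃ e ∈ F, x ∈ e)).card ≤ F.card * 2 := by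
  classical
  have h1 : univ.filter (fun x : α => ∃ e ∈ F, x ∈ e) ⊆
      F.biUnion (fun e => univ.filter (fun x : α => x ∈ e)) := by
    intro x hx
    obtain ⟨e, he, hxe⟩ := (Finset.mem_filter.1 hx).2
    exact Finset.mem_biUnion.2 ⟨e, he, Finset.mem_filter.2 ⟨Finset.mem_univ _, hxe⟩⟩
  refine (Finset.card_le_card h1).trans (Finset.card_biUnion_le_card_mul _ _ _ fun e _ => ?_)
  induction e using Sym2.ind with
  | _ a b =>
    have h2 : univ.filter (fun x : α => x ∈ s(a, b)) ⊆ {a, b} := by
      intro x hx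
      have h3 := (Finset.mem_filter.1 hx).2
      rw [Sym2.mem_iff] at h3
      simpa using h3
    exact (Finset.card_le_card h2).trans Finset.card_le_two

/-- `Q = vS W S` is good for the virtual colouring. A colour `k` of `S` is missing at `x` in the virtual
colouring only if it is missing in `col`, or the partner is in `W` (at most `|W|` vertices `x` for a
given `k`, at most `|W|` colours for a given `x`), or the edge to the partner is virtual (at most `2 |vE|`
vertices `x`, at most one colour `k`). -/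
theorem vcol_good (col : Sym2 V → κ) (hcol : Proper col) (S : Finset κ) (W : Finset V)
    (Pb : List (V × List V × V)) (hB : Brd col S W Pb) (μ m : ℕ)
    (hSc : ∀ k ∈ S, (univ.filter (fun x => par col k x = x)).card ≤ m)
    (hSv : ∀ x, x ∉ W → miss col S x ≤ m) (hμ : m + W.card + 2 * Pb.length + 1 ≤ μ)
    (hl : Fintype.card V ≤ S.card + μ) : GoodK (vcol col W Pb) (vS W S) μ := by
  classical
  have hE := vE_card col S W Pb hB
  refine ⟨vcol_proper col hcol W Pb, ?_, ?_, ?_⟩
  · intro k hk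
    obtain ⟨k₀, hk₀, rfl⟩ := Finset.mem_map.1 hk
    change (univ.filter (fun x => par (vcol col W Pb) (Sum.inl k₀) x = x)).card ≤ μ
    have h1 : univ.filter (fun x => par (vcol col W Pb) (Sum.inl k₀) x = x) ⊆
        (univ.filter (fun x : {x // x ∉ W} => par col k₀ x.1 = x.1) ∪
          univ.filter (fun x : {x // x ∉ W} => par col k₀ x.1 ∈ W)) ∪
          univ.filter (fun x : {x // x ∉ W} => ∃ e ∈ vE W Pb, x ∈ e) := by
      intro x hx
      have h2 := CVir_key col hcol W Pb x k₀ (Finset.mem_filter.1 hx).2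
      rw [Finset.mem_union, Finset.mem_union, Finset.mem_filter, Finset.mem_filter,
        Finset.mem_filter]
      rcases h2 with h2 | h2 | ⟨hp, h2⟩
      · exact Or.inl (Or.inl ⟨Finset.mem_univ _, h2⟩)
      · exact Or.inl (Or.inr ⟨Finset.mem_univ _, h2⟩)
      · exact Or.inr ⟨Finset.mem_univ _, _, h2, Sym2.mem_mk_left _ _⟩
    have h2 : (univ.filter (fun x : {x // x ∉ W} => par col k₀ x.1 = x.1)).card ≤ m := by
      refine le_trans ?_ (hSc k₀ hk₀)
      refine Finset.card_le_card_of_injOn (fun x => x.1) ?_ (Subtype.val_injective.injOn)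
      intro x hx
      exact Finset.mem_coe.2 (Finset.mem_filter.2 ⟨Finset.mem_univ _,
        (Finset.mem_filter.1 (Finset.mem_coe.1 hx)).2⟩)
    have h3 : (univ.filter (fun x : {x // x ∉ W} => par col k₀ x.1 ∈ W)).card ≤ W.card := by
      refine Finset.card_le_card_of_injOn (fun x => par col k₀ x.1) ?_ ?_
      · intro x hx
        exact Finset.mem_coe.2 (Finset.mem_filter.1 (Finset.mem_coe.1 hx)).2
      · intro x _ y _ h
        exact Subtype.ext (par_inj col hcol k₀ h)
    have h4 := CVir_two (vE W Pb)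
    have h5 := Finset.card_le_card h1
    have h6 := Finset.card_union_le
      (univ.filter (fun x : {x // x ∉ W} => par col k₀ x.1 = x.1) ∪
          univ.filter (fun x : {x // x ∉ W} => par col k₀ x.1 ∈ W))
      (univ.filter (fun x : {x // x ∉ W} => ∃ e ∈ vE W Pb, x ∈ e))
    have h7 := Finset.card_union_le (univ.filter (fun x : {x // x ∉ W} => par col k₀ x.1 = x.1))
      (univ.filter (fun x : {x // x ∉ W} => par col k₀ x.1 ∈ W))
    omega
  · intro x
    have h0 : (vS W S).filter (fun k => par (vcol col W Pb) k x = x) =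
        (S.filter (fun k => par (vcol col W Pb) (Sum.inl k) x = x)).map
          ⟨Sum.inl, Sum.inl_injective⟩ := by
      unfold vS
      rw [Finset.filter_map]
      rfl
    rw [h0, Finset.card_map]
    have h1 : S.filter (fun k => par (vcol col W Pb) (Sum.inl k) x = x) ⊆
        (S.filter (fun k => par col k x.1 = x.1) ∪
          S.filter (fun k => par col k x.1 ≠ x.1 ∧ par col k x.1 ∈ W)) ∪
          S.filter (fun k => ∃ y, s(x, y) ∈ vE W Pb ∧ col s(x.1, y.1) = k) := by
      intro k hk
      obtain ⟨hkS, hk1⟩ := Finset.mem_filter.1 hk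
      have h2 := CVir_key col hcol W Pb x k hk1
      rw [Finset.mem_union, Finset.mem_union, Finset.mem_filter, Finset.mem_filter,
        Finset.mem_filter]
      by_cases h3 : par col k x.1 = x.1
      · exact Or.inl (Or.inl ⟨hkS, h3⟩)
      · rcases h2 with h2 | h2 | ⟨hp, h2⟩
        · exact absurd h2 h3
        · exact Or.inl (Or.inr ⟨hkS, h3, h2⟩)
        · exact Or.inr ⟨hkS, _, h2, par_col col k x.1 h3⟩
    have h2 : (S.filter (fun k => par col k x.1 = x.1)).card ≤ m := hSv x.1 x.2
    have h3 : (S.filter (fun k => par col k x.1 ≠ x.1 ∧ par col k x.1 ∈ W)).card ≤ W.card := by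
      refine Finset.card_le_card_of_injOn (fun k => par col k x.1) ?_ ?_
      · intro k hk
        exact Finset.mem_coe.2 (Finset.mem_filter.1 (Finset.mem_coe.1 hk)).2.2
      · intro k hk k' _ h
        exact par_colour_inj col k k' x.1 (Finset.mem_filter.1 (Finset.mem_coe.1 hk)).2.1 h
    have h4 : (S.filter (fun k => ∃ y, s(x, y) ∈ vE W Pb ∧ col s(x.1, y.1) = k)).card ≤ 1 := by
      rw [Finset.card_le_one]
      intro k hk k' hk'
      obtain ⟨-, y, hy, hyk⟩ := Finset.mem_filter.1 hk
      obtain ⟨-, y', hy', hyk'⟩ := Finset.mem_filter.1 hk'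
      have h5 := CVir_mat hB hy hy' (Sym2.mem_mk_left _ _) (Sym2.mem_mk_left _ _)
      have h6 : y = y' := Sym2.congr_right.1 h5
      rw [← hyk, ← hyk', h6]
    have h5 := Finset.card_le_card h1
    have h6 := Finset.card_union_le
      (S.filter (fun k => par col k x.1 = x.1) ∪
          S.filter (fun k => par col k x.1 ≠ x.1 ∧ par col k x.1 ∈ W))
      (S.filter (fun k => ∃ y, s(x, y) ∈ vE W Pb ∧ col s(x.1, y.1) = k))
    have h7 := Finset.card_union_le (S.filter (fun k => par col k x.1 = x.1))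
      (S.filter (fun k => par col k x.1 ≠ x.1 ∧ par col k x.1 ∈ W))
    omega
  · have h1 : (vS W S).card = S.card := Finset.card_map _
    rw [h1]
    exact (Fintype.card_subtype_le _).trans hl

end Pool.Agent.W_cd7020_h81r
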